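import Pool.Agent.H183.NI.ALL

/-!
# Fixed `lam ≥ 2`, regular group with a small commutator subgroup: polynomial orders

The order of a symmetric `2-(v, k, lam)` design is `k - lam`. If the order is a square `u ^ 2` (which is
always so if `v` is even) then the theorem of Bruck, Ryser and Chowla gives nothing, and self-conjugate
primes give nothing. If the order is `f(t)`, `f = g ^ 2`, and the design has a regular group `H` with a
commutator subgroup of order at most `C`, one prime factor `r > lam (C + 1)` of `u = |g(t)|` is enough: it is a
multiplier of the image of the difference set in `H / H'` (second multiplier theorem), and if a power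
of `r` is `-1` modulo `w₁ w₂`, where `w₁ ∣ k + u` and `w₂ ∣ k - u` are primes, then the characters of the
quotient of order `w₁ w₂` take the values `± u`, a contradiction. Chebotarev's theorem shows that such
primes exist for almost all `t`.
-/

set_option autoImplicit false

namespace Pool.Agent.Results.MP_c38931_co.AllPolynomialOrders

open Filter Topology Polynomial

/-- The blocks `B i` (`i : Fin v`) form a symmetric `2-(v, k, lam)` design on the points `Fin v`
with `2 ≤ k < v`, and `H` is a group of automorphisms of the design acting regularly (sharply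
transitively) on the points. -/
structure IsRegularDesign (v k lam : ℕ) (B : Fin v → Finset (Fin v))
    (H : Subgroup (Equiv.Perm (Fin v))) : Prop where
  two_le : 2 ≤ k
  lt : k < v
  size : ∀ i, (B i).card = k
  pair : ∀ x y : Fin v, x ≠ y →
    (Finset.univ.filter (fun i => x ∈ B i ∧ y ∈ B i)).card = lam
  regular : ∀ x y : Fin v, ∃! h : Equiv.Perm (Fin v), h ∈ H ∧ h x = y
  aut : ∀ h ∈ H, ∀ i, ∃ j, (B i).image h = B j

/-- `n` is the order `k - lam` of a symmetric `2-(v, k, lam)` design (`v` arbitrary) with a group of
automorphisms which acts regularly on the points and whose commutator subgroup has order at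
most `C`. For `C = 1` the group is abelian. -/
def IsOrder (C lam n : ℕ) : Prop :=
  ∃ (v : ℕ) (B : Fin v → Finset (Fin v)) (H : Subgroup (Equiv.Perm (Fin v))),
    IsRegularDesign v (n + lam) lam B H ∧ Nat.card (commutator H) ≤ C

/-- Let `lam ≥ 2` and `C` be fixed and let `f` be ANY nonconstant polynomial with integer coefficients,
perfect squares included. The integers `t ≥ 0` such that `f(t)` is the order `k - lam` of a symmetric
`2-(v, k, lam)` design with a regular group of automorphisms whose commutator subgroup has order at
most `C` have density zero. -/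
theorem result (C lam : ℕ) (hlam : 2 ≤ lam) (f : ℤ[X]) (hf : 0 < f.natDegree) :
    Tendsto (fun N : ℕ => ({t : ℕ | t < N ∧ ∃ n : ℕ, f.eval (t : ℤ) = n ∧
      IsOrder C lam n}.ncard : ℝ) / N) atTop (𝓝 0) := by
  refine squeeze_zero (fun N => by positivity) (fun N => ?_)
    (Pool.Agent.H183.NI.designs Pool.Agent.H183.NI.sqpn Pool.Agent.H183.PO.t_GAUSS C lam (by omega)
      f hf)
  refine div_le_div_of_nonneg_right ?_ (Nat.cast_nonneg N)
  rw [Nat.cast_le]
  refine Set.ncard_le_ncard ?_ ((Set.finite_Iio N).subset fun t ht => ht.1)
  rintro t ⟨ht, n, hfn, v, B, H, hd, hc⟩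
  exact ⟨ht, n, hfn, v, B, H, hd.two_le, ⟨hd.lt, hd.size, hd.pair, hd.regular, hd.aut⟩, hc⟩

end Pool.Agent.Results.MP_c38931_co.AllPolynomialOrders
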