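import Pool.Agent.H27D.Conv

/-!
# Sets of block size that are not blocks, in symmetric designs with `k` large compared to `lam`

In a symmetric `2-(v, k, lam)` design two distinct blocks meet in `lam` points. So a block `X` meets
all blocks but one (itself) in exactly `lam` points. Let now `X` be a set of `k` points that is not a
block. If `k ≥ lam (2 lam + 1) ^ 2` then at least `2 (k - lam)` blocks meet `X` in a number of points
different from `lam`, and there are exactly `2 (k - lam)` such blocks if and only if `X` arises from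
a block by exchanging one point. In particular two different symmetric designs on the same points
with the same parameters, `k ≥ lam (2 lam + 1) ^ 2`, differ in at least `2 (k - lam)` blocks
(exchanging two points of a design changes exactly `2 (k - lam)` blocks).
-/

set_option autoImplicit false

namespace Pool.Agent.Results.MP_c38931_co.NonBlocks

/-- The blocks `B i` (`i : Fin v`) form a symmetric `2-(v, k, lam)` design on the points `Fin v`
with `2 ≤ k < v`. -/
structure IsSymmetricDesign (v k lam : ℕ) (B : Fin v → Finset (Fin v)) : Prop where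
  two_le : 2 ≤ k
  lt : k < v
  size : ∀ i, (B i).card = k
  pair : ∀ x y : Fin v, x ≠ y →
    (Finset.univ.filter (fun i => x ∈ B i ∧ y ∈ B i)).card = lam

/-- The number of blocks that meet `X` in a number of points different from `lam`. -/
def defect {v : ℕ} (lam : ℕ) (B : Fin v → Finset (Fin v)) (X : Finset (Fin v)) : ℕ :=
  (Finset.univ.filter (fun i => (X ∩ B i).card ≠ lam)).card

/-- the statement about sets of points -/
theorem sets (v k lam : ℕ) (B : Fin v → Finset (Fin v)) (h : IsSymmetricDesign v k lam B)
    (hk : lam * (2 * lam + 1) ^ 2 ≤ k) (X : Finset (Fin v)) (hX : X.card = k)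
    (hne : ∀ i, B i ≠ X) :
    2 * (k - lam) ≤ defect lam B X ∧
      (defect lam B X = 2 * (k - lam) ↔ ∃ i, (X ∩ B i).card = k - 1) := by
  have hv : 0 < v := lt_of_le_of_lt (Nat.zero_le _) h.lt
  obtain ⟨hD, hl⟩ := Pool.Agent.H27D.des_of h.two_le hv h.size h.pair
  have hX' : (X.card : ℤ) = (k : ℤ) := by exact_mod_cast hX
  have hl' : (1 : ℤ) ≤ (lam : ℤ) := by exact_mod_cast hl
  have hk' : (lam : ℤ) * (2 * lam + 1) ^ 2 ≤ (k : ℤ) := by exact_mod_cast hk
  have hsupp : Pool.Agent.H27D.supp B (lam : ℤ) X =
      Finset.univ.filter (fun i => (X ∩ B i).card ≠ lam) := by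
    unfold Pool.Agent.H27D.supp Pool.Agent.H27D.dd
    apply Finset.filter_congr
    intro i _
    rw [ne_eq, sub_eq_zero]
    exact_mod_cast Iff.rfl
  have hcard : ((Pool.Agent.H27D.supp B (lam : ℤ) X).card : ℤ) = (defect lam B X : ℤ) := by
    rw [hsupp]; rfl
  have hkl : 8 * (lam : ℤ) ≤ (k : ℤ) - lam := by nlinarith
  have hkl' : lam + 2 ≤ k := by omega
  have hcast : ((k - lam : ℕ) : ℤ) = (k : ℤ) - lam := by
    push_cast [(by omega : lam ≤ k)]; ring
  have key := Pool.Agent.H27D.main_bound hD hl' hk' X hX' hne
  rw [hcard] at key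
  constructor
  · zify
    rw [hcast]
    rcases key with h1 | ⟨h1, _⟩ <;> linarith
  · constructor
    · intro heq
      have heq' : (defect lam B X : ℤ) = 2 * ((k : ℤ) - lam) := by
        rw [heq]; push_cast; rw [hcast]
      rcases key with h1 | ⟨_, b, hb⟩
      · exfalso; linarith
      · refine ⟨b, ?_⟩
        unfold Pool.Agent.H27D.dd at hb
        omega
    · rintro ⟨b, hb⟩
      have hb' : Pool.Agent.H27D.dd B (lam : ℤ) X b = (k : ℤ) - lam - 1 := by
        unfold Pool.Agent.H27D.dd
        rw [hb]
        push_cast [(by omega : 1 ≤ k)]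
        ring
      have h1 := Pool.Agent.H27D.exact_one hD X hX' b (by omega) hb'
      rw [hcard] at h1
      zify
      rw [hcast]
      exact h1

/-- Let `B` be a symmetric `2-(v, k, lam)` design with `k ≥ lam (2 lam + 1) ^ 2`.

(1) Let `X` be a set of `k` points that is not a block. Then at least `2 (k - lam)` blocks meet `X`
in a number of points different from `lam`, and there are exactly `2 (k - lam)` of them if and only
if `X` has `k - 1` points in common with some block.

(2) If `B'` is a symmetric `2-(v, k, lam)` design on the same points and some block of `B'` is not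
a block of `B`, then at least `2 (k - lam)` blocks of `B` are not blocks of `B'`. -/
theorem result (v k lam : ℕ) (B : Fin v → Finset (Fin v)) (h : IsSymmetricDesign v k lam B)
    (hk : lam * (2 * lam + 1) ^ 2 ≤ k) :
    (∀ X : Finset (Fin v), X.card = k → (∀ i, B i ≠ X) →
      2 * (k - lam) ≤ defect lam B X ∧
        (defect lam B X = 2 * (k - lam) ↔ ∃ i, (X ∩ B i).card = k - 1)) ∧
    (∀ B' : Fin v → Finset (Fin v), IsSymmetricDesign v k lam B' →
      (∃ j, ∀ i, B i ≠ B' j) →
      2 * (k - lam) ≤ (Finset.univ.filter (fun i => ∀ j, B i ≠ B' j)).card) := by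
  refine ⟨fun X hX hne => sets v k lam B h hk X hX hne, ?_⟩
  rintro B' h' ⟨j₀, hj₀⟩
  have hv : 0 < v := lt_of_le_of_lt (Nat.zero_le _) h.lt
  have h1 := (sets v k lam B h hk (B' j₀) (h'.size j₀) hj₀).1
  refine le_trans h1 ?_
  unfold defect
  apply Finset.card_le_card
  intro i hi
  simp only [Finset.mem_filter, Finset.mem_univ, true_and] at hi ⊢
  intro j hij
  obtain ⟨hD', _⟩ := Pool.Agent.H27D.des_of h'.two_le hv h'.size h'.pair
  have hjj : j ≠ j₀ := by
    intro hj
    exact hj₀ i (by rw [hij, hj])
  have h2 := Pool.Agent.H27D.block_inter hD' hjj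
  apply hi
  rw [hij]
  exact_mod_cast h2

end Pool.Agent.Results.MP_c38931_co.NonBlocks
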