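import Pool.Agent.H700.HD.Linear

/-!
# Symmetric designs and factorization norms (MP_c38931_co, Hall's finiteness conjecture)

`NormLE F g`: the real matrix `F` has factorization norm `γ₂(F) ≤ g`, that is, `F i j = ⟨x i, y j⟩` with vectors of
squared length at most `g`.

(1) If `2 k ≤ v` and on a rectangle `P × Q` of points and blocks the incidence is separated by a matrix of norm `g`
with one-sided multiplicative gap (`F ≥ 1` for incident pairs and `F ≤ 1 - δ` for the others), then
`δ² k |P| |Q| ≤ 16 g² v²`, uniformly in `lam`.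
(2) The same for random trees of at most `d` equality tests with small acceptance probability.
(3) If the incidence relation is the union of `t` relations of norm at most `g`, then `k ≤ 160 lam t g²`, and
`k ≤ 16 t² g²` if `2 k ≤ v`.
(4) For every design and every `m ≥ 1` there is such a covering with norm `g = √m` and `t ≤ k / m + 1`. So the
least number of relations of norm `g` is `k / g²`, up to a factor depending only on `lam`, for all `1 ≤ g ≤ √k`.
(5) `v ≤ k²`.

Proof of (1): the matrix `(v / k) N - 1` has operator norm `(v / k) √(k - lam)`, and pairs with `F` to at most `g`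
times this times `√(|P| |Q|)`. Proof of (3): the library's bound for the number of edges of a `K_{2,t}`-free graph of
given factorization norm (`Pool.Agent.TH528.GN.edges_le`), applied to every relation.
-/

set_option autoImplicit false

namespace Pool.Agent.Results.MP_c38931_co.SmallFactorizationNorm

open Finset Pool.Agent.H700.HD

/-- The blocks `B j` form a symmetric `2-(v, k, lam)` design on the points `Fin v`. -/
structure IsSymmetricDesign (v k lam : ℕ) (B : Fin v → Finset (Fin v)) : Prop where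
  two_le : 2 ≤ k
  lt : k < v
  size : ∀ j, (B j).card = k
  pair : ∀ x y : Fin v, x ≠ y → (univ.filter fun j => x ∈ B j ∧ y ∈ B j).card = lam

open Classical in
/-- **Symmetric designs and factorization norms.** -/
theorem result (v k lam : ℕ) (hlam : 1 ≤ lam) (B : Fin v → Finset (Fin v)) (hB : IsSymmetricDesign v k lam B) :
    -- (1) separation on a rectangle of points and blocks, uniformly in `lam`
    (2 * k ≤ v → ∀ (P Q : Finset (Fin v)) (F : Fin v → Fin v → ℝ) (g δ : ℝ), 1 ≤ g → 0 < δ → δ ≤ 1 →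
      NormLE F g → (∀ i ∈ P, ∀ j ∈ Q, i ∈ B j → 1 ≤ F i j) →
      (∀ i ∈ P, ∀ j ∈ Q, i ∉ B j → F i j ≤ 1 - δ) →
      δ ^ 2 * k * (P.card * Q.card) ≤ 16 * g ^ 2 * (v : ℝ) ^ 2) ∧
    -- (2) random trees of equality tests with small acceptance probability
    (2 * k ≤ v → ∀ (P Q : Finset (Fin v)) (Ω : Type) [Fintype Ω] [Nonempty Ω]
      (T : Ω → EqTree (Fin v) (Fin v)) (d : ℕ) (α δ : ℝ), 0 < α → α ≤ 1 → 0 < δ → δ ≤ 1 →
      (∀ ω, (T ω).depth ≤ d) →
      (∀ i ∈ P, ∀ j ∈ Q, i ∈ B j →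
        α * Fintype.card Ω ≤ ((univ.filter fun ω => (T ω).run i j = true).card : ℝ)) →
      (∀ i ∈ P, ∀ j ∈ Q, i ∉ B j →
        ((univ.filter fun ω => (T ω).run i j = true).card : ℝ) ≤ (1 - δ) * (α * Fintype.card Ω)) →
      (α * δ) ^ 2 * k * (P.card * Q.card) ≤ 16 * 9 ^ d * (v : ℝ) ^ 2) ∧
    -- (3) unions of relations of small norm
    (∀ (t : ℕ) (R : Fin t → Fin v → Fin v → Prop) (g : ℝ), (∀ i j, i ∈ B j ↔ ∃ r, R r i j) →
      (∀ r, NormLE (fun i j => if R r i j then (1 : ℝ) else 0) g) →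
      (k : ℝ) ≤ 160 * lam * (t * g ^ 2) ∧ (2 * k ≤ v → (k : ℝ) ≤ 16 * (t * g) ^ 2)) ∧
    -- (4) sharpness of (3)
    (∀ m : ℕ, 1 ≤ m → ∃ (t : ℕ) (R : Fin t → Fin v → Fin v → Prop), t * m ≤ k + m ∧
      (∀ i j, i ∈ B j ↔ ∃ r, R r i j) ∧
      ∀ r, NormLE (fun i j => if R r i j then (1 : ℝ) else 0) (Real.sqrt m)) ∧
    -- (5) the number of points
    v ≤ k ^ 2 := by
  have hk := hB.two_le
  have hkv := hB.lt
  obtain ⟨hr, hkk⟩ := Pool.Agent.Helper17_Hall.repl v k lam (by omega) hlam B hB.size hB.pair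
  have hv1 : ((v - 1 : ℕ) : ℝ) = (v : ℝ) - 1 := by
    rw [Nat.cast_sub (by omega)]
    norm_num
  have hkkR : (k : ℝ) * k = lam * ((v : ℝ) - 1) + k := by
    rw [← hv1]
    exact_mod_cast hkk
  have hlk : lam ≤ k := by
    by_contra hcon
    have h1 : k ≤ lam := by omega
    have h2 : k * k ≤ lam * (v - 1) := Nat.mul_le_mul h1 (by omega)
    omega
  have hlkR : (lam : ℝ) ≤ k := by exact_mod_cast hlk
  have hv0 : (0 : ℝ) < v := by
    have : 0 < v := by omega
    exact_mod_cast this
  have main : 2 * k ≤ v → ∀ (P Q : Finset (Fin v)) (F : Fin v → Fin v → ℝ) (g δ : ℝ), 1 ≤ g → 0 < δ → δ ≤ 1 →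
      NormLE F g → (∀ i ∈ P, ∀ j ∈ Q, i ∈ B j → 1 ≤ F i j) →
      (∀ i ∈ P, ∀ j ∈ Q, i ∉ B j → F i j ≤ 1 - δ) →
      δ ^ 2 * k * (P.card * Q.card) ≤ 16 * g ^ 2 * (v : ℝ) ^ 2 :=
    fun h2 P Q F g δ hg hδ hδ1 hF h1 h0 =>
      separation hk h2 hr hB.pair hkkR hlkR P Q F g δ hg hδ hδ1 hF h1 h0
  refine ⟨main, ?_, ?_, fun m hm => exists_cover hB.size m hm, ?_⟩
  · intro h2 P Q Ω _ _ T d α δ hα hα1 hδ hδ1 hd h1 h0
    have hΩ : (0 : ℝ) < Fintype.card Ω := by exact_mod_cast Fintype.card_pos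
    have hc : 0 < α * Fintype.card Ω := mul_pos hα hΩ
    have hsum : NormLE (fun i j => ∑ ω ∈ (univ : Finset Ω), if (T ω).run i j = true then (1 : ℝ) else 0)
        ((univ : Finset Ω).card * 3 ^ d) :=
      NormLE.sum univ _ _ fun ω _ => (T ω).norm.mono (pow_le_pow_right₀ (by norm_num) (hd ω))
    have hF := hsum.smul (α * Fintype.card Ω)⁻¹ (inv_nonneg.2 hc.le)
    have e : (α * (Fintype.card Ω : ℝ))⁻¹ * ((univ : Finset Ω).card * 3 ^ d) = 3 ^ d / α := by
      rw [card_univ]
      field_simp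
    rw [e] at hF
    have hg : 1 ≤ (3 : ℝ) ^ d / α := by
      rw [le_div_iff₀ hα, one_mul]
      exact hα1.trans (one_le_pow₀ (by norm_num))
    have key := main h2 P Q _ _ δ hg hδ hδ1 hF (fun i hi j hj hij => ?_) (fun i hi j hj hij => ?_)
    · have e1 : 16 * ((3 : ℝ) ^ d / α) ^ 2 * (v : ℝ) ^ 2 * α ^ 2 = 16 * 9 ^ d * (v : ℝ) ^ 2 := by
        have : ((3 : ℝ) ^ d) ^ 2 = 9 ^ d := by
          rw [← pow_mul, mul_comm, pow_mul]
          norm_num
        rw [div_pow, this]
        field_simp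
      calc (α * δ) ^ 2 * k * (P.card * Q.card) = (δ ^ 2 * k * (P.card * Q.card)) * α ^ 2 := by ring
        _ ≤ (16 * ((3 : ℝ) ^ d / α) ^ 2 * (v : ℝ) ^ 2) * α ^ 2 :=
          mul_le_mul_of_nonneg_right key (sq_nonneg _)
        _ = _ := e1
    · have := h1 i hi j hj hij
      rw [sum_boole, inv_mul_eq_div, le_div_iff₀ hc, one_mul]
      exact this
    · have := h0 i hi j hj hij
      rw [sum_boole, inv_mul_eq_div, div_le_iff₀ hc]
      exact this
  · intro t R g hR hN
    refine ⟨union_le (by omega) hB.size hB.pair hlam t R hR g hN, fun h2 => ?_⟩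
    have hF : NormLE (fun i j => ∑ r ∈ (univ : Finset (Fin t)), if R r i j then (1 : ℝ) else 0) (t * g) := by
      have := NormLE.sum (univ : Finset (Fin t)) (fun r i j => if R r i j then (1 : ℝ) else 0) g
        fun r _ => hN r
      rwa [card_univ, Fintype.card_fin] at this
    have hone : ∀ i j, i ∈ B j → 1 ≤ ∑ r ∈ (univ : Finset (Fin t)), if R r i j then (1 : ℝ) else 0 := by
      intro i j hij
      obtain ⟨r, hr'⟩ := (hR i j).1 hij
      calc (1 : ℝ) = if R r i j then (1 : ℝ) else 0 := by rw [if_pos hr']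
        _ ≤ _ := single_le_sum (f := fun r => if R r i j then (1 : ℝ) else 0)
          (fun r _ => by split_ifs <;> norm_num) (mem_univ r)
    have hg : 1 ≤ (t : ℝ) * g := by
      obtain ⟨i, hi⟩ : (B ⟨0, by omega⟩).Nonempty := by
        rw [← card_pos, hB.size]
        omega
      have h3 := hone i _ hi
      obtain ⟨L, x, y, hx, hy, h⟩ := hF
      have h4 := h i ⟨0, by omega⟩
      have h5 : ∑ l, x i l * y ⟨0, by omega⟩ l ≤
          (∑ l, x i l ^ 2 + ∑ l, y ⟨0, by omega⟩ l ^ 2) / 2 := by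
        rw [← sum_add_distrib, sum_div]
        exact sum_le_sum fun l _ => by nlinarith [sq_nonneg (x i l - y ⟨0, by omega⟩ l)]
      have h6 := hx i
      have h7 := hy ⟨0, by omega⟩
      linarith
    have key := main h2 univ univ _ _ 1 hg one_pos le_rfl hF (fun i _ j _ hij => hone i j hij)
      (fun i _ j _ hij => by
        rw [sub_self]
        refine (sum_eq_zero fun r _ => ?_).le
        exact if_neg fun h => hij ((hR i j).2 ⟨r, h⟩))
    rw [card_univ, Fintype.card_fin] at key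
    have h8 : (k : ℝ) * (v ^ 2) ≤ (16 * (t * g) ^ 2) * (v ^ 2) := by
      calc (k : ℝ) * (v ^ 2) = 1 ^ 2 * k * (v * v) := by ring
        _ ≤ _ := key
    exact le_of_mul_le_mul_right h8 (by positivity)
  · have h1 : v - 1 ≤ lam * (v - 1) := Nat.le_mul_of_pos_left _ hlam
    have h2 : k * k = k ^ 2 := by ring
    omega

end Pool.Agent.Results.MP_c38931_co.SmallFactorizationNorm
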