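import Pool.Agent.H680.HallPoly
import Pool.Agent.H680.HallRobust
import Pool.Agent.H680.HallMixed
import Pool.Agent.H680.HallSigned
import Pool.Agent.H680.HallLadder

/-!
# Hall's conjecture for symmetric designs with Zariski open incidence

Let `D` be a symmetric `2`-`(v, k, lam)` design, `1 ≤ lam`, `2 ≤ k < v`. Suppose its incidence
relation is given by polynomial *inequations* `≠ 0` of bounded degree in boundedly many coordinates,
over arbitrary fields and with arbitrary (not necessarily injective) labellings of the points and
the blocks by vectors; moreover a bounded number of equalities and of comparisons of arbitrary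
labels of points with arbitrary labels of blocks, and a bounded number of sign tests
`⟨a(x), a'(b)⟩ > 0` with real vectors of bounded dimension (so all semialgebraic conditions of
bounded complexity) may be used. Then `k` and `v` are bounded in terms of `lam` and the format.
Moreover, no relation given by polynomial inequations of a bounded format contains a positive
proportion of the flags, unless it is dense.

The only property of the polynomial inequations that is used is that they have no long *ladders*
`x_0, …, x_N`, `b_0, …, b_N` with `R (x_i) (b_i)` for all `i` and `¬ R (x_j) (b_i)` for all `i < j`;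
the theorem is stated for all relations with this property.

All this is false for incidence given by polynomial *equations*: the Desarguesian projective planes
(`lam = 1`) are given by one bilinear equation in three plus three coordinates.

Proof idea. A relation given by polynomial inequations is the non-zero pattern of a matrix of small
rank over a field `K(T)`, so that it has no long ladders. On the other hand, start with the set `W`
of all points; as long as `W` is not empty, choose `x ∈ W` and a block `b` on `x` with the fewest
points of `W`, and replace `W` by `W \ b`. This gives a ladder, and `W` loses at most about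
`1 + lam |W| / k` points in a step, so that there are many steps. With labels: if more than `N`
points with the same label were on more than `lam N` blocks each with this label, then there would
be a ladder with `N + 1` steps. A comparison of labels is a disjunction of `log v` equalities of
other labels. The sign tests are constant on a large rectangle (library module
`Helper17_Hall.Homog3`), on which the design has the expected number of flags.
-/

set_option autoImplicit false

namespace Pool.Agent.Results.MP_c38931_co.ZariskiOpenIncidence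

open Pool.Agent.H680.HallRank

/-- A symmetric `2`-`(v, k, lam)` design with points `P`, blocks `B` and incidence `inc`: there are
`v` points and `v` blocks, every block has `k` points, and two different points are on exactly
`lam` common blocks. -/
def SymmetricDesign {P B : Type} (inc : P → B → Prop) (v k lam : ℕ) : Prop :=
  Nat.card P = v ∧ Nat.card B = v ∧ (∀ b, Nat.card {x // inc x b} = k) ∧
    ∀ x y, x ≠ y → Nat.card {b // inc x b ∧ inc y b} = lam

/-- `R` is given by polynomial inequations over a field `K`, with labellings `u : P → K^m` of the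
points and `w : B → K^{m'}` of the blocks, in one of two ways.

(split) `R x b` if and only if `f_{j,b}(u(x)) + g_{j,x}(w(b)) ≠ 0` for some `j` of an index set `J`.
Here `f_{j,b}` is a polynomial of degree at most `e` in `m` variables, which may depend in any way
on the block `b`, and `g_{j,x}` is a polynomial of degree at most `e'` in `m'` variables, which may
depend in any way on the point `x`.

(joint) `R x b` if and only if `f(u(x), w(b)) ≠ 0` for some `f` in a set `F` of polynomials over `K`
in `m + m'` variables, of total degree at most `e + e' + 1`. -/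
def PolyOpen {P B : Type} (R : P → B → Prop) (m m' e e' : ℕ) : Prop :=
  ∃ (K : Type) (_ : Field K) (u : P → Fin m → K) (w : B → Fin m' → K),
    (∃ (J : Type) (f : J → B → MvPolynomial (Fin m) K) (g : J → P → MvPolynomial (Fin m') K),
      (∀ j b, (f j b).totalDegree ≤ e) ∧ (∀ j x, (g j x).totalDegree ≤ e') ∧
      ∀ x b, R x b ↔ ∃ j, MvPolynomial.eval (u x) (f j b) + MvPolynomial.eval (w b) (g j x) ≠ 0) ∨
    (∃ F : Set (MvPolynomial (Fin m ⊕ Fin m') K), (∀ f ∈ F, f.totalDegree ≤ e + e' + 1) ∧
      ∀ x b, R x b ↔ ∃ f ∈ F, MvPolynomial.eval (Sum.elim (u x) (w b)) f ≠ 0)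

/-- `R` has no ladder with `N + 1` steps: there are no points `x_0, …, x_N` and blocks
`b_0, …, b_N` such that `R (x_i) (b_i)` for all `i` and `¬ R (x_j) (b_i)` for all `i < j`. -/
def LadderLE {P B : Type} (R : P → B → Prop) (N : ℕ) : Prop :=
  ∀ (x : Fin (N + 1) → P) (b : Fin (N + 1) → B),
    ¬ ((∀ i, R (x i) (b i)) ∧ ∀ i j, i < j → ¬ R (x j) (b i))

/-- `R` is a union of `L` relations without ladders with `N + 1` steps. -/
def LadderUnion {P B : Type} (R : P → B → Prop) (L N : ℕ) : Prop :=
  ∃ Q : Fin L → P → B → Prop, (∀ l, LadderLE (Q l) N) ∧ ∀ x b, R x b ↔ ∃ l, Q l x b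

/-- `R` is a union of `L` relations, each of which is the conjunction of an equality of a label of
the point and a label of the block, of `c` comparisons of labels of the point and of the block in
linear orders, and of a relation without ladders with `N + 1` steps. All labellings are arbitrary
(equalities and comparisons can be made void by constant labels; both directions of a comparison
are possible, as the linear orders are arbitrary). -/
def MixedUnion {P B : Type} (R : P → B → Prop) (L c N : ℕ) : Prop :=
  ∃ (Lab : Type) (al : Fin L → P → Lab) (be : Fin L → B → Lab) (Lin : Fin L → Fin c → Type)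
    (_ : ∀ l i, LinearOrder (Lin l i)) (ga : ∀ l i, P → Lin l i) (de : ∀ l i, B → Lin l i)
    (Q : Fin L → P → B → Prop), (∀ l, LadderLE (Q l) N) ∧
      ∀ x b, R x b ↔ ∃ l, al l x = be l b ∧ (∀ i, ga l i x ≤ de l i b) ∧ Q l x b

/-- As `MixedUnion`, but with `s` sign tests `∑ j, a_i(x)_j a'_i(b)_j > 0`, `i < s`, with vectors
`a_i(x)`, `a'_i(b)` of `ℝ^d` which depend in any way on the point `x` and on the block `b`: each of
the `L` relations may moreover contain an arbitrary condition `sg l` on the truth values of the
sign tests. -/
def SignedUnion {P B : Type} (R : P → B → Prop) (s d L c N : ℕ) : Prop :=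
  ∃ (a : Fin s → P → Fin d → ℝ) (a' : Fin s → B → Fin d → ℝ) (sg : Fin L → Set (Fin s → Prop))
    (Lab : Type) (al : Fin L → P → Lab) (be : Fin L → B → Lab) (Lin : Fin L → Fin c → Type)
    (_ : ∀ l i, LinearOrder (Lin l i)) (ga : ∀ l i, P → Lin l i) (de : ∀ l i, B → Lin l i)
    (Q : Fin L → P → B → Prop), (∀ l, LadderLE (Q l) N) ∧
      ∀ x b, R x b ↔ ∃ l, (fun i => 0 < ∑ j, a i x j * a' i b j) ∈ sg l ∧ al l x = be l b ∧
        (∀ i, ga l i x ≤ de l i b) ∧ Q l x b

/-- The bounds that we prove for unions of relations without long ladders. -/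
def SmallFor (v k lam N : ℕ) : Prop :=
  (k : ℝ) * (1 - (lam : ℝ) / k) ^ N < 1 ∧ ((k : ℝ) / lam - 1) * Real.log k < N ∧
    k ≤ lam * N ∧ v ≤ 1 + lam * N ^ 2

open Classical in
theorem smallFor_of {P B : Type} [Fintype P] [Fintype B] (inc : P → B → Prop) (v k lam : ℕ)
    (hD : SymmetricDesign inc v k lam) (hlam : 1 ≤ lam) (hk : 2 ≤ k) (hkv : k < v)
    (rho : Finset P → ℕ)
    (hrho : ∀ (W : Finset P) (x : P) (b : B), x ∈ W → inc x b →
      rho (W.filter fun y => ¬ inc y b) + 1 ≤ rho W) (N : ℕ) (hN : rho Finset.univ ≤ N) :
    SmallFor v k lam N := by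
  have hD' : IsSymmetricDesign inc v k lam := hD
  have h1 : (k : ℝ) * (1 - (lam : ℝ) / k) ^ N < 1 := greedy_univ hD' hk hkv hlam rho hrho N hN
  have hlk := lam_lt hD' hk hkv
  have hk0 : (0 : ℝ) < k := by exact_mod_cast (by omega : 0 < k)
  have hl0 : (0 : ℝ) < lam := by exact_mod_cast (by omega : 0 < lam)
  have hlk' : (lam : ℝ) < k := by exact_mod_cast hlk
  have hq0 : 0 < 1 - (lam : ℝ) / k := by
    have : (lam : ℝ) / k < 1 := (div_lt_one hk0).mpr hlk'
    linarith
  have hkle : k ≤ lam * N := by
    have hb : 1 + (N : ℝ) * (-((lam : ℝ) / k)) ≤ (1 + (-((lam : ℝ) / k))) ^ N := by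
      apply one_add_mul_le_pow
      have : (lam : ℝ) / k < 1 := (div_lt_one hk0).mpr hlk'
      linarith
    have h2 : (k : ℝ) * (1 + (N : ℝ) * (-((lam : ℝ) / k))) < 1 := by
      refine lt_of_le_of_lt (mul_le_mul_of_nonneg_left hb hk0.le) ?_
      rw [← sub_eq_add_neg]; exact h1
    have h3 : (k : ℝ) * (1 + (N : ℝ) * (-((lam : ℝ) / k))) = k - lam * N := by
      field_simp
      ring
    rw [h3] at h2
    have h4 : (k : ℝ) < ((lam * N + 1 : ℕ) : ℝ) := by push_cast; linarith
    have h5 : k < lam * N + 1 := by exact_mod_cast h4
    omega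
  refine ⟨h1, ?_, hkle, ?_⟩
  · -- logarithms
    have hpos : 0 < (k : ℝ) * (1 - (lam : ℝ) / k) ^ N := by positivity
    have h2 : Real.log ((k : ℝ) * (1 - (lam : ℝ) / k) ^ N) < 0 := Real.log_neg hpos h1
    rw [Real.log_mul hk0.ne' (pow_pos hq0 N).ne', Real.log_pow] at h2
    -- log (1 - lam/k) ≥ 1 - 1/(1 - lam/k) = - lam / (k - lam)
    have h3 : 1 - (1 - (lam : ℝ) / k)⁻¹ ≤ Real.log (1 - (lam : ℝ) / k) :=
      Real.one_sub_inv_le_log_of_pos hq0
    have h4 : 1 - (1 - (lam : ℝ) / k)⁻¹ = -(lam / (k - lam)) := by
      have : (k : ℝ) - lam ≠ 0 := by linarith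
      field_simp
      ring
    rw [h4] at h3
    have h5 : Real.log k < N * (lam / (k - lam)) := by
      have : (N : ℝ) * (-(lam / (k - lam))) ≤ N * Real.log (1 - (lam : ℝ) / k) :=
        mul_le_mul_of_nonneg_left h3 (Nat.cast_nonneg N)
      linarith
    have hkl : 0 < (k : ℝ) - lam := by linarith
    have h6 : ((k : ℝ) / lam - 1) * Real.log k < ((k : ℝ) / lam - 1) * (N * (lam / (k - lam))) := by
      apply mul_lt_mul_of_pos_left h5
      have : 1 < (k : ℝ) / lam := (one_lt_div hl0).mpr hlk'
      linarith
    have h7 : ((k : ℝ) / lam - 1) * (N * (lam / (k - lam))) = N := by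
      have : (k : ℝ) - lam ≠ 0 := hkl.ne'
      field_simp
    rwa [h7] at h6
  · have hb := basic_eq hD' hk (by omega)
    have h2 : lam * (v - 1) ≤ lam * (lam * N ^ 2) := by
      calc lam * (v - 1) ≤ k * k := by omega
        _ ≤ (lam * N) * (lam * N) := Nat.mul_le_mul hkle hkle
        _ = lam * (lam * N ^ 2) := by ring
    have h3 := Nat.le_of_mul_le_mul_left h2 (by omega)
    omega

/-- **Relations given by polynomial inequations have no long ladders.** -/
theorem PolyOpen.ladderLE {P B : Type} [Finite P] [Finite B] {R : P → B → Prop}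
    {m m' e e' : ℕ} (h : PolyOpen R m m' e e') :
    LadderLE R ((m + e).choose m + (m' + e').choose m') := by
  classical
  have : Fintype P := Fintype.ofFinite P
  have : Fintype B := Fintype.ofFinite B
  rw [← card_index m m' e e']
  obtain ⟨K, _, u, w, ⟨J, f, g, hf, hg, hR⟩ | ⟨F, hF, hR⟩⟩ := h
  · obtain ⟨G, H, hGH⟩ := exists_factor (e := e) (e' := e') u w
      (fun j x b => MvPolynomial.eval (u x) (f j b) + MvPolynomial.eval (w b) (g j x))
      (fun j => (Rep.polyLeft (f j) (hf j)).add (Rep.polyRight (g j) (hg j)))
    exact ladderLE_of_factor G H fun x b => (hR x b).trans (hGH x b)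
  · obtain ⟨G, H, hGH⟩ := exists_factor (e := e) (e' := e') u w
      (fun (f : F) x b => MvPolynomial.eval (Sum.elim (u x) (w b)) f.1)
      (fun f => Rep.poly f.1 (hF f.1 f.2))
    refine ladderLE_of_factor G H fun x b => ?_
    rw [hR x b, ← hGH x b]
    constructor
    · rintro ⟨f, hf, h⟩
      exact ⟨⟨f, hf⟩, h⟩
    · rintro ⟨f, h⟩
      exact ⟨f.1, f.2, h⟩

theorem LadderLE.comp {P B P' B' : Type} {R : P → B → Prop} {N : ℕ} (h : LadderLE R N)
    (p : P' → P) (q : B' → B) : LadderLE' (fun x b => R (p x) (q b)) N :=
  fun x b => h (fun i => p (x i)) (fun i => q (b i))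

theorem SymmetricDesign.comp {P B : Type} {inc : P → B → Prop} {v k lam : ℕ}
    (h : SymmetricDesign inc v k lam) (p : Fin v ≃ P) (q : Fin v ≃ B) :
    IsSymmetricDesign (fun x b => inc (p x) (q b)) v k lam := by
  refine ⟨by simp, by simp, fun b => ?_, fun x y hxy => ?_⟩
  · rw [← h.2.2.1 (q b)]
    exact Nat.card_congr (p.subtypeEquiv fun _ => Iff.rfl)
  · rw [← h.2.2.2 (p x) (p y) (fun hc => hxy (p.injective hc))]
    exact Nat.card_congr (q.subtypeEquiv fun _ => Iff.rfl)

theorem signed_bound (P B : Type) [Finite P] [Finite B] (inc : P → B → Prop) (v k lam : ℕ)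
    (hD : SymmetricDesign inc v k lam) (hlam : 1 ≤ lam) (hk : 2 ≤ k) (hkv : k < v)
    (s d L c N : ℕ) (hR : SignedUnion inc s d L c N) (M : ℕ)
    (hM : M = ((8 * (d + 1)) * (8 * (d + 1) + 1) ^ (d + 1)) ^ s) :
    k ≤ M ^ 2 + 2 * M * ((lam + 1) * (L * N) * (Nat.log 2 v + 1) ^ c) := by
  classical
  obtain ⟨a, a', sg, Lab, al, be, Lin, _, ga, de, Q, hQ, hinc⟩ := hR
  have p : Fin v ≃ P := (Finite.equivFinOfCardEq hD.1).symm
  have q : Fin v ≃ B := (Finite.equivFinOfCardEq hD.2.1).symm
  exact signed_fin (hD.comp p q) hlam hk hkv L c N s d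
    (fun i x => a i (p x)) (fun i b => a' i (q b)) sg (fun l x => al l (p x))
    (fun l b => be l (q b)) Lin (fun l i x => ga l i (p x)) (fun l i b => de l i (q b))
    (fun l x b => Q l (p x) (q b)) (fun x b => hinc (p x) (q b))
    (fun l => ladderRank (fun x b => Q l (p x) (q b)) N)
    (fun l W x b hx hb => by
      have := ladderRank_drop ((hQ l).comp p q) W x b hx hb
      convert this)
    (fun l W => ladderRank_le _ _ W) M hM

/-- **Hall's conjecture for symmetric designs given by polynomial inequations (or relations without
long ladders), real sign tests, equalities and comparisons of labels.**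

(0) A relation given by polynomial inequations of the format `(m, m', e, e')` has no ladder with
more than `C(m+e, m) + C(m'+e', m')` steps.

(A) Let `inc` be the incidence of a symmetric `2`-`(v, k, lam)` design with `lam ≥ 1`, `2 ≤ k < v`.

(1) If the incidence is a union of `L` relations without ladders with `N + 1` steps, then
`k (1 - lam/k)^(L N) < 1`, `(k/lam - 1) log k < L N`, `k ≤ lam L N` and `v ≤ 1 + lam (L N)²`.

(2) If `R` is any union of `L` relations without ladders with `N + 1` steps, then the number of
flags in `R` is at most `2 k √(L N |R|)`: the proportion of the flags that lie in `R` is at most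
twice the square root of `L N` times the proportion of all pairs that lie in `R`.

(3) If `R` is contained in the incidence relation and is a union of `L` relations, each given by an
equality of labels, `c` comparisons of labels and a relation without ladders with `N + 1` steps,
then it contains at most `(lam + 1) L N (⌊log₂ v⌋ + 1)^c v` of the `v k` flags. So if `R` is the
incidence relation, then `k ≤ (lam + 1) L N (⌊log₂ v⌋ + 1)^c`.

(4) If the incidence is given in this way and moreover by `s` sign tests with vectors of `ℝ^d`, then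
`k ≤ M² + 2 M (lam + 1) L N (⌊log₂ v⌋ + 1)^c` with `M = (8 (d + 1) (8 (d + 1) + 1)^(d + 1))^s`.

(B) For all `lam ≥ 1` and all formats there are only finitely many parameters of symmetric designs
whose incidence is of the form in (4). -/
theorem result :
    -- (0)
    (∀ (P B : Type) [Finite P] [Finite B] (R : P → B → Prop) (m m' e e' : ℕ),
      PolyOpen R m m' e e' → LadderLE R ((m + e).choose m + (m' + e').choose m')) ∧
    -- (A)
    (∀ (P B : Type) [Finite P] [Finite B] (inc : P → B → Prop) (v k lam : ℕ),
      SymmetricDesign inc v k lam → 1 ≤ lam → 2 ≤ k → k < v → ∀ L N : ℕ,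
      -- (1) the incidence is a union of relations without long ladders
      (LadderUnion inc L N → SmallFor v k lam (L * N)) ∧
      -- (2) relations without long ladders do not correlate with the incidence
      (∀ R : P → B → Prop, LadderUnion R L N →
        Nat.card {p : P × B // inc p.1 p.2 ∧ R p.1 p.2} ^ 2 ≤
          4 * (L * N) * k ^ 2 * Nat.card {p : P × B // R p.1 p.2}) ∧
      -- (3) relations inside the incidence that also use equalities and comparisons of labels
      (∀ (R : P → B → Prop) (c : ℕ), MixedUnion R L c N → (∀ x b, R x b → inc x b) →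
        Nat.card {p : P × B // R p.1 p.2} ≤ (lam + 1) * (L * N) * (Nat.log 2 v + 1) ^ c * v) ∧
      (∀ c : ℕ, MixedUnion inc L c N → k ≤ (lam + 1) * (L * N) * (Nat.log 2 v + 1) ^ c) ∧
      -- (4) with real sign tests
      (∀ s d c M : ℕ, SignedUnion inc s d L c N →
        M = ((8 * (d + 1)) * (8 * (d + 1) + 1) ^ (d + 1)) ^ s →
        k ≤ M ^ 2 + 2 * M * ((lam + 1) * (L * N) * (Nat.log 2 v + 1) ^ c))) ∧
    -- (B)
    (∀ lam s d L c N : ℕ, 1 ≤ lam → ∃ V : ℕ,
      ∀ (P B : Type) [Finite P] [Finite B] (inc : P → B → Prop) (v k : ℕ),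
        SymmetricDesign inc v k lam → 2 ≤ k → k < v → SignedUnion inc s d L c N → v ≤ V) := by
  classical
  -- relations inside the incidence
  have hmix : ∀ (P B : Type) [Finite P] [Finite B] (inc : P → B → Prop) (v k lam : ℕ),
      SymmetricDesign inc v k lam → ∀ (L N : ℕ) (R : P → B → Prop) (c : ℕ),
      MixedUnion R L c N → (∀ x b, R x b → inc x b) →
        Nat.card {p : P × B // R p.1 p.2} ≤
          (lam + 1) * (L * N) * (Nat.log 2 v + 1) ^ c * v := by
    intro P B _ _ inc v k lam hD L N R c hR hsub
    have : Fintype P := Fintype.ofFinite P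
    have : Fintype B := Fintype.ofFinite B
    have hD' : IsSymmetricDesign inc v k lam := hD
    obtain ⟨Lab, al, be, Lin, _, ga, de, Q, hQ, hRQ⟩ := hR
    have key := mixed_bound hD' L c N al be Lin ga de Q
      (fun l x b h1 h2 h3 => hsub x b ((hRQ x b).mpr ⟨l, h1, h2, h3⟩))
      (fun l => ladderRank (Q l) N)
      (fun l W x b hx hb => by
        have := ladderRank_drop (hQ l) W x b hx hb
        convert this)
      (fun l W => ladderRank_le _ _ W)
    have heq : Nat.card {p : P × B // R p.1 p.2} =
        (Finset.univ.filter fun p : P × B => ∃ l, al l p.1 = be l p.2 ∧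
          (∀ i, ga l i p.1 ≤ de l i p.2) ∧ Q l p.1 p.2).card := by
      rw [Nat.card_eq_fintype_card, Fintype.card_subtype]
      congr 1
      ext p
      simp only [Finset.mem_filter, Finset.mem_univ, true_and]
      exact hRQ p.1 p.2
    rw [heq]
    convert key
  refine ⟨?_, ?_, ?_⟩
  · intro P B _ _ R m m' e e' h
    exact h.ladderLE
  · intro P B _ _ inc v k lam hD hlam hk hkv L N
    have : Fintype P := Fintype.ofFinite P
    have : Fintype B := Fintype.ofFinite B
    have hD' : IsSymmetricDesign inc v k lam := hD
    refine ⟨?_, ?_, ?_, ?_, ?_⟩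
    · rintro ⟨Q, hQ, hRQ⟩
      exact smallFor_of inc v k lam hD hlam hk hkv (ladderSum Q N)
        (fun W x b hx hb => by
          have := ladderSum_drop hQ hRQ W x b hx hb
          convert this) _ (ladderSum_le Q N _)
    · rintro R ⟨Q, hQ, hRQ⟩
      have := robust hD' hk R (ladderSum Q N)
        (fun W x b hx hb => by
          have := ladderSum_drop hQ hRQ W x b hx hb
          convert this) (L * N) (ladderSum_le Q N _)
      rw [Nat.card_eq_fintype_card, Nat.card_eq_fintype_card, Fintype.card_subtype,
        Fintype.card_subtype]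
      convert this
    · intro R c hR hsub
      exact hmix P B inc v k lam hD L N R c hR hsub
    · intro c hR
      have h1 := hmix P B inc v k lam hD L N inc c hR (fun _ _ h => h)
      have h2 : Nat.card {p : P × B // inc p.1 p.2} = k * v := by
        rw [Nat.card_eq_fintype_card, Fintype.card_subtype]
        have h3 := card_flags_blocks hD' (Finset.univ : Finset B)
        rw [Finset.card_univ, ← Nat.card_eq_fintype_card (α := B), hD.2.1] at h3
        rw [← h3]
        congr 1
        ext p
        simp
      rw [h2] at h1
      exact Nat.le_of_mul_le_mul_right h1 (by omega)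
    · intro s d c M hR hM
      exact signed_bound P B inc v k lam hD hlam hk hkv s d L c N hR M hM
  · intro lam s d L c N hlam
    obtain ⟨V, hV⟩ := exists_bound_of_log
      ((((8 * (d + 1)) * (8 * (d + 1) + 1) ^ (d + 1)) ^ s) ^ 2 +
        2 * (((8 * (d + 1)) * (8 * (d + 1) + 1) ^ (d + 1)) ^ s) * ((lam + 1) * (L * N))) c
    refine ⟨V, fun P B _ _ inc v k hD hk hkv hR => hV v k ?_ ?_⟩
    · have : Fintype P := Fintype.ofFinite P
      have : Fintype B := Fintype.ofFinite B
      have hD' : IsSymmetricDesign inc v k lam := hD
      have hb := basic_eq hD' hk (by omega)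
      have h1 : v - 1 ≤ lam * (v - 1) := Nat.le_mul_of_pos_left _ (by omega)
      rw [sq]
      omega
    · refine (signed_bound P B inc v k lam hD hlam hk hkv s d L c N hR _ rfl).trans ?_
      generalize ((8 * (d + 1)) * (8 * (d + 1) + 1) ^ (d + 1)) ^ s = M
      have h1 : 1 ≤ (Nat.log 2 v + 1) ^ c := Nat.one_le_pow _ _ (Nat.succ_pos _)
      calc M ^ 2 + 2 * M * ((lam + 1) * (L * N) * (Nat.log 2 v + 1) ^ c)
          ≤ M ^ 2 * (Nat.log 2 v + 1) ^ c +
            2 * M * ((lam + 1) * (L * N) * (Nat.log 2 v + 1) ^ c) := by
            gcongr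
            exact Nat.le_mul_of_pos_right _ h1
        _ = (M ^ 2 + 2 * M * ((lam + 1) * (L * N))) * (Nat.log 2 v + 1) ^ c := by ring

end Pool.Agent.Results.MP_c38931_co.ZariskiOpenIncidence
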